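import Pool.Agent.H.MP_d29ee2_al.Main
import Pool.Agent.H.MP_75202e_al.Main

set_option autoImplicit false

namespace Pool.Agent.Results.MP_75202e_al.Q1

universe u

def IsDivisible (D : Type u) [Group D] : Prop :=
  ∀ (d : D) (n : ℕ), 0 < n → ∃ x : D, x ^ n = d

def IsMinDivCompletion {G H : Type u} [Group G] [LinearOrder G] [Group H] [LinearOrder H]
    (j : G →* H) : Prop :=
  Function.Injective j ∧ Monotone j ∧ IsDivisible H ∧
    ∀ J : Subgroup H, j.range ≤ J → (∀ (g : H) (n : ℕ), 0 < n → g ^ n ∈ J → g ∈ J) → J = ⊤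

theorem result (G : Type u) [Group G] [LinearOrder G] [MulLeftMono G] [MulRightMono G]
    (hG : ∀ a ∈ commutator G, ∀ b ∈ commutator G, a * b = b * a) :
    ∃ (K : Type u) (_ : Group K) (_ : LinearOrder K) (_ : MulLeftMono K) (_ : MulRightMono K)
      (i : G →* K), IsMinDivCompletion i ∧
      ∀ (H : Type u) [Group H] [LinearOrder H] [MulLeftMono H] [MulRightMono H] (j : G →* H),
        IsMinDivCompletion j →
        ∃ φ : K →* H, Function.Surjective φ ∧ ∀ g : G, φ (i g) = j g := by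
  obtain ⟨D, _, _, _, _, f, h1, h2, h3⟩ := Pool.Agent.H.MP_75202e_al.bludov G hG
  obtain ⟨K, _, _, _, _, i, hi, hu⟩ := Pool.Agent.H.MP_d29ee2_al.main (G := G) ⟨D, f, h1, h2, h3⟩
  refine ⟨K, _, _, inferInstance, inferInstance, i, hi, ?_⟩
  intro H _ _ _ _ j hj
  obtain ⟨φ, hφ⟩ := hu ⟨H, j, hj.1, hj.2.1, hj.2.2.1⟩
  refine ⟨φ, ?_, hφ⟩
  rw [← MonoidHom.range_eq_top]
  apply hj.2.2.2
  · rintro _ ⟨g, rfl⟩
    exact ⟨i g, hφ g⟩
  · rintro g n hn ⟨k, hk⟩
    obtain ⟨x, rfl⟩ := hi.2.2.1 k n hn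
    refine ⟨x, ?_⟩
    rw [map_pow] at hk
    rcases lt_trichotomy (φ x) g with h | h | h
    · exact absurd hk (pow_lt_pow_left' hn.ne' h).ne
    · exact h
    · exact absurd hk (pow_lt_pow_left' hn.ne' h).ne'

end Pool.Agent.Results.MP_75202e_al.Q1
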